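import Pool.Agent.Run7.h608.TK.Iface

/-!
# Piece UNI of project TK (MP_cc494f_an)
-/

set_option autoImplicit false

open MeasureTheory Set Filter Topology
open scoped ENNReal
open R109.GT
open Run7.h608.TK

namespace Pool.Agent.Run7.h871.TK

theorem phi_int (x : ℝ) (m : ℤ) (h : x = m) : phi x = 0 := by
  subst h
  simp [phi]

theorem tak_zero (v : ℕ → ℤ → ℤ) : tak v 0 = 0 := by
  unfold tak
  have : ∀ n : ℕ, (v n ⌊(2:ℝ) ^ n * 0⌋ : ℝ) * phi ((2:ℝ) ^ n * 0) / 2 ^ n = 0 := by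
    intro n
    rw [phi_int ((2:ℝ) ^ n * 0) 0 (by simp)]
    simp
  simp only [this, tsum_zero]

theorem tak_half (v : ℕ → ℤ → ℤ) (h : v 0 0 = 1) : tak v (1 / 2) = 1 / 2 := by
  unfold tak
  rw [tsum_eq_single 0]
  · have h1 : ⌊(2:ℝ) ^ 0 * (1 / 2)⌋ = 0 := by
      rw [Int.floor_eq_iff]; norm_num
    rw [h1, h]
    have h2 : phi ((2:ℝ) ^ 0 * (1 / 2)) = 1 / 2 := by
      have h3 := phi_odd ((2:ℝ) ^ 0 * (1 / 2)) (by
        have : ⌊2 * ((2:ℝ) ^ 0 * (1 / 2))⌋ = 1 := by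
          rw [Int.floor_eq_iff]; norm_num
        rw [this]; norm_num)
      rw [h3, h1]; norm_num
    rw [h2]; norm_num
  · intro n hn
    obtain ⟨m, rfl⟩ := Nat.exists_eq_succ_of_ne_zero hn
    rw [phi_int ((2:ℝ) ^ (m + 1) * (1 / 2)) (2 ^ m) (by push_cast; rw [pow_succ]; ring)]
    simp

theorem occ_apply (v : ℕ → ℤ → ℤ) (hv : Sgn v) {A : Set ℝ} (hA : MeasurableSet A) :
    occ v A = volume (tak v ⁻¹' A ∩ Ico (0:ℝ) 1) := by
  unfold occ
  rw [Measure.map_apply (cont v hv).measurable hA,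
    Measure.restrict_apply ((cont v hv).measurable hA)]

theorem occ_pos (v : ℕ → ℤ → ℤ) (hv : Sgn v) (h : v 0 0 = 1) :
    0 < occ v (Ioo (1 / 8 : ℝ) (3 / 8)) := by
  rw [occ_apply v hv measurableSet_Ioo]
  have hc := cont v hv
  have hiv : (1 / 4 : ℝ) ∈ tak v '' Ioo 0 (1 / 2) := by
    have h1 := intermediate_value_Ioo (a := (0:ℝ)) (b := 1 / 2) (by norm_num) hc.continuousOn
    rw [tak_zero, tak_half v h] at h1
    exact h1 ⟨by norm_num, by norm_num⟩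
  obtain ⟨x, hx, hxe⟩ := hiv
  have hop : IsOpen (tak v ⁻¹' Ioo (1 / 8 : ℝ) (3 / 8) ∩ Ioo (0:ℝ) 1) :=
    (isOpen_Ioo.preimage hc).inter isOpen_Ioo
  have hne : (tak v ⁻¹' Ioo (1 / 8 : ℝ) (3 / 8) ∩ Ioo (0:ℝ) 1).Nonempty := by
    refine ⟨x, ?_, hx.1, lt_trans hx.2 (by norm_num)⟩
    show tak v x ∈ Ioo (1 / 8 : ℝ) (3 / 8)
    rw [hxe]
    constructor <;> norm_num
  refine lt_of_lt_of_le (hop.measure_pos volume hne) (measure_mono ?_)
  intro y hy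
  exact ⟨hy.1, hy.2.1.le, hy.2.2⟩

theorem liminf_le_of_ev {u : ℕ → ℝ≥0∞} {c : ℝ≥0∞} (h : ∀ᶠ k in atTop, u k ≤ c) :
    liminf u atTop ≤ c := by
  calc liminf u atTop ≤ liminf (fun _ : ℕ => c) atTop := liminf_le_liminf h
    _ = c := by simp

theorem Bd_Icc {w : ℕ → ℤ → ℤ} {D : ℝ} (hD : 0 ≤ D) (h : Bd w D) (a b : ℝ) :
    occ w (Icc a b) ≤ ENNReal.ofReal (D * (b - a)) := by
  have h1 := h (Icc a b)
  rw [Measure.smul_apply, Real.volume_Icc, smul_eq_mul, ← ENNReal.ofReal_mul hD] at h1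
  exact h1

/-- piece UNI -/
theorem t_UNI (hCPT : S_CPT) (hFAT : S_FAT) (hBDC : S_BDC) (hDEN : S_DEN) : S_UNI := by
  intro D0 hE η hη hηD
  have hD0 : 0 < D0 := hE.1
  by_contra hcon
  push Not at hcon
  have hr : ∀ k : ℕ, ∃ w : ℕ → ℤ → ℤ, Sgn w ∧ Bd w D0 ∧ w 0 0 = 1 ∧ ∀ a b : ℝ, 1 / 8 ≤ a →
      a + 1 / ((k:ℝ) + 1) ≤ b → b ≤ 3 / 8 → occ w (Icc a b) < ENNReal.ofReal ((D0 - η) * (b - a)) := by
    intro k
    exact hcon (1 / ((k:ℝ) + 1)) (by positivity)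
  choose W hWS hWB hW1 hW using hr
  obtain ⟨φ, hφ, v, hv, hlim⟩ := hCPT W hWS
  have hfat := hFAT (fun k => W (φ k)) v (fun k => hWS _) hv hlim
  have hBv : Bd v D0 := by
    refine hBDC v D0 hv hD0.le ?_
    intro a b hab
    refine (hfat a b).trans (liminf_le_of_ev (Eventually.of_forall fun k => ?_))
    exact Bd_Icc hD0.le (hWB (φ k)) a b
  have hv1 : v 0 0 = 1 := by
    obtain ⟨k, hk⟩ := (hlim 0 0).exists
    rw [← hk]; exact hW1 _
  have hsmall : ∀ a b : ℝ, 1 / 8 ≤ a → a < b → b ≤ 3 / 8 →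
      occ v (Ioo a b) ≤ ENNReal.ofReal ((D0 - η) * (b - a)) := by
    intro a b ha hab hb
    refine (hfat a b).trans (liminf_le_of_ev ?_)
    have h1 : Tendsto (fun k : ℕ => 1 / ((φ k : ℝ) + 1)) atTop (𝓝 0) :=
      (tendsto_one_div_add_atTop_nhds_zero_nat (𝕜 := ℝ)).comp hφ.tendsto_atTop
    have h2 : ∀ᶠ k in atTop, 1 / ((φ k : ℝ) + 1) < b - a :=
      h1.eventually (gt_mem_nhds (by linarith))
    filter_upwards [h2] with k hk
    exact (hW (φ k) a b ha (by linarith) hb).le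
  obtain ⟨a', b', ha', hab', hb', hlt⟩ :=
    hDEN D0 hE v hv hBv (1 / 8) (3 / 8) (occ_pos v hv hv1) η hη hηD
  have hle : occ v (Icc a' b') ≤ ENNReal.ofReal ((D0 - η) * (b' - a')) := by
    have ht : Tendsto (fun ε : ℝ => ENNReal.ofReal ((D0 - η) * ((b' + ε) - (a' - ε)))) (𝓝[>] 0)
        (𝓝 (ENNReal.ofReal ((D0 - η) * (b' - a')))) := by
      have hc : Continuous (fun ε : ℝ => ENNReal.ofReal ((D0 - η) * ((b' + ε) - (a' - ε)))) :=
        ENNReal.continuous_ofReal.comp (by fun_prop)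
      have := (hc.tendsto 0).mono_left (nhdsWithin_le_nhds (s := Ioi (0:ℝ)))
      simpa using this
    refine ge_of_tendsto ht ?_
    have hm : 0 < min (a' - 1 / 8) (3 / 8 - b') := lt_min (by linarith) (by linarith)
    have hev : ∀ᶠ ε in 𝓝[>] (0:ℝ), ε ∈ Ioo (0:ℝ) (min (a' - 1 / 8) (3 / 8 - b')) :=
      Ioo_mem_nhdsGT hm
    filter_upwards [hev] with ε hε
    have h3 := hε.2
    have h4 : ε < a' - 1 / 8 := lt_of_lt_of_le h3 (min_le_left _ _)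
    have h5 : ε < 3 / 8 - b' := lt_of_lt_of_le h3 (min_le_right _ _)
    refine le_trans (measure_mono ?_) (hsmall (a' - ε) (b' + ε) (by linarith)
      (by linarith [hε.1]) (by linarith))
    intro y hy
    exact ⟨by linarith [hy.1, hε.1], by linarith [hy.2, hε.1]⟩
  exact absurd hlt (not_lt.mpr hle)

end Pool.Agent.Run7.h871.TK
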