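import Pool.Agent.Run7.h608.TK.Iface

/-!
# Piece EXT of project TK (MP_cc494f_an)
-/

set_option autoImplicit false

open MeasureTheory Set Filter Topology
open scoped ENNReal
open R109.GT
open Run7.h608.TK

namespace Pool.Agent.Run7.h871.TK.E

theorem Bd_ge {w : ℕ → ℤ → ℤ} {D : ℝ} (hw : Sgn w) (h : Bd w D) : 1 / 2 ≤ D := by
  have h1 := h (Icc (-1:ℝ) 1)
  have h2 : occ w (Icc (-1:ℝ) 1) = 1 := by
    unfold occ
    rw [Measure.map_apply (cont w hw).measurable measurableSet_Icc]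
    have : tak w ⁻¹' Icc (-1:ℝ) 1 = univ := by
      ext x
      simp only [mem_preimage, mem_Icc, mem_univ, iff_true]
      exact abs_le.1 (bound w hw x)
    rw [this, Measure.restrict_apply_univ, Real.volume_Ico]
    norm_num
  rw [h2, Measure.smul_apply, Real.volume_Icc, smul_eq_mul] at h1
  have h3 : (1:ℝ≥0∞) ≤ ENNReal.ofReal (D * 2) := by
    rw [ENNReal.ofReal_mul' (by norm_num)]
    convert h1 using 3
    norm_num
  rw [ENNReal.one_le_ofReal] at h3
  linarith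

/-- piece EXT -/
theorem t_EXT (hCPT : S_CPT) (hFAT : S_FAT) (hBDC : S_BDC) : S_EXT := by
  rintro ⟨w0, D1, hw0, hD1⟩
  set A : Set ℝ := {D | ∃ w, Sgn w ∧ Bd w D} with hA
  have hne : A.Nonempty := ⟨D1, w0, hw0, hD1⟩
  have hbd : ∀ D ∈ A, 1 / 2 ≤ D := by
    rintro D ⟨w, hw, hB⟩
    exact Bd_ge hw hB
  have hbelow : BddBelow A := ⟨1 / 2, hbd⟩
  have hge : 1 / 2 ≤ sInf A := le_csInf hne hbd
  have hD0 : 0 < sInf A := by linarith
  refine ⟨sInf A, hge, hD0, ?_, ?_⟩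
  · have hr : ∀ k : ℕ, ∃ w : ℕ → ℤ → ℤ, Sgn w ∧ ∃ D, D < sInf A + 1 / ((k:ℝ) + 1) ∧ Bd w D := by
      intro k
      obtain ⟨D, ⟨w, hw, hB⟩, hlt⟩ := exists_lt_of_csInf_lt hne
        (show sInf A < sInf A + 1 / ((k:ℝ) + 1) by
          have : 0 < 1 / ((k:ℝ) + 1) := by positivity
          linarith)
      exact ⟨w, hw, D, hlt, hB⟩
    choose W hWS D hDlt hWB using hr
    obtain ⟨φ, hφ, v, hv, hlim⟩ := hCPT W hWS
    have hfat := hFAT (fun k => W (φ k)) v (fun k => hWS _) hv hlim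
    refine ⟨v, hv, hBDC v (sInf A) hv hD0.le ?_⟩
    intro a b hab
    have hab' : (a:ℝ) < b := by exact_mod_cast hab
    refine (hfat a b).trans ?_
    have hle : ∀ k : ℕ, occ (W (φ k)) (Icc (a:ℝ) b) ≤
        ENNReal.ofReal ((sInf A + 1 / ((φ k:ℝ) + 1)) * ((b:ℝ) - a)) := by
      intro k
      have h1 := hWB (φ k) (Icc (a:ℝ) b)
      rw [Measure.smul_apply, Real.volume_Icc, smul_eq_mul] at h1
      refine h1.trans ?_
      rw [← ENNReal.ofReal_mul' (by linarith)]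
      exact ENNReal.ofReal_le_ofReal
        (mul_le_mul_of_nonneg_right (hDlt (φ k)).le (by linarith))
    have ht : Tendsto (fun k : ℕ => ENNReal.ofReal ((sInf A + 1 / ((φ k:ℝ) + 1)) * ((b:ℝ) - a))) atTop
        (𝓝 (ENNReal.ofReal (sInf A * ((b:ℝ) - a)))) := by
      refine ENNReal.tendsto_ofReal ?_
      have h1 : Tendsto (fun k : ℕ => 1 / ((φ k : ℝ) + 1)) atTop (𝓝 0) :=
        (tendsto_one_div_add_atTop_nhds_zero_nat (𝕜 := ℝ)).comp hφ.tendsto_atTop
      have h2 := (h1.const_add (sInf A)).mul_const ((b:ℝ) - a)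
      simpa using h2
    calc liminf (fun k => occ (W (φ k)) (Icc (a:ℝ) b)) atTop
        ≤ liminf (fun k : ℕ => ENNReal.ofReal ((sInf A + 1 / ((φ k:ℝ) + 1)) * ((b:ℝ) - a))) atTop :=
          liminf_le_liminf (Eventually.of_forall hle)
      _ = ENNReal.ofReal (sInf A * ((b:ℝ) - a)) := ht.liminf_eq
  · intro w D hw hB
    exact csInf_le hbelow ⟨w, hw, hB⟩

end Pool.Agent.Run7.h871.TK.E
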