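import Pool.Agent.Run7.h608.TK.Iface

/-!
# Piece FY of project TK (MP_cc494f_an)
-/

set_option autoImplicit false

open MeasureTheory Set Filter Topology
open scoped ENNReal
open R109.GT
open Run7.h608.TK

namespace Pool.Agent.Run7.h871.TK

/-- the points which are dyadic at some level -/
def Dya : Set ℝ := {y | ∃ (n : ℕ) (k : ℤ), (2:ℝ) ^ n * y = k}

theorem Dya_countable : Dya.Countable := by
  have : Dya ⊆ ⋃ p : ℕ × ℤ, {(p.2 : ℝ) / 2 ^ p.1} := by
    rintro y ⟨n, k, h⟩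
    refine mem_iUnion.2 ⟨(n, k), ?_⟩
    show y = (k:ℝ) / 2 ^ n
    rw [eq_div_iff (by positivity), ← h]; ring
  exact (countable_iUnion fun p => countable_singleton _).mono this

theorem vol_Dya : volume Dya = 0 := Dya_countable.measure_zero _

/-- the set of `y` over which the chord of `i` crosses the cell -/
def Ov (w : ℕ → ℤ → ℤ) (M : ℕ) (i : ℤ) : Set ℝ := {y | Cr w M i ⌊(2:ℝ) ^ M * y⌋}

theorem meas_Ov (w : ℕ → ℤ → ℤ) (M : ℕ) (i : ℤ) : MeasurableSet (Ov w M i) := by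
  have h1 : Measurable (fun y : ℝ => ⌊(2:ℝ) ^ M * y⌋) :=
    Int.measurable_floor.comp (measurable_const_mul _)
  have h2 : MeasurableSet {q : ℤ | Cr w M i q} := MeasurableSet.of_discrete
  exact h1 h2

theorem vol_Ov (w : ℕ → ℤ → ℤ) (M : ℕ) (i : ℤ) :
    volume (Ov w M i) ≤ ENNReal.ofReal (|(slope w M i : ℝ)| / 2 ^ M) := by
  have hp : (0:ℝ) < 2 ^ M := by positivity
  have hsub : Ov w M i ⊆ Ico ((min (val w M i : ℝ) (val w M i + slope w M i)) / 2 ^ M)
      ((max (val w M i : ℝ) (val w M i + slope w M i)) / 2 ^ M) := by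
    intro y hy
    have hf1 := Int.floor_le ((2:ℝ) ^ M * y)
    have hf2 := Int.lt_floor_add_one ((2:ℝ) ^ M * y)
    rcases hy with ⟨h1, h2⟩ | ⟨h1, h2⟩
    · have h1' : (val w M i : ℝ) ≤ (⌊(2:ℝ) ^ M * y⌋ : ℝ) := by exact_mod_cast h1
      have h2' : (⌊(2:ℝ) ^ M * y⌋ : ℝ) + 1 ≤ val w M i + slope w M i := by exact_mod_cast h2
      constructor
      · rw [div_le_iff₀ hp]
        exact (min_le_left _ _).trans (by linarith)
      · rw [lt_div_iff₀ hp]
        exact lt_of_lt_of_le (by linarith) (le_max_right _ _)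
    · have h1' : (val w M i : ℝ) + slope w M i ≤ (⌊(2:ℝ) ^ M * y⌋ : ℝ) := by exact_mod_cast h1
      have h2' : (⌊(2:ℝ) ^ M * y⌋ : ℝ) + 1 ≤ val w M i := by exact_mod_cast h2
      constructor
      · rw [div_le_iff₀ hp]
        exact (min_le_right _ _).trans (by linarith)
      · rw [lt_div_iff₀ hp]
        exact lt_of_lt_of_le (by linarith) (le_max_left _ _)
  refine (measure_mono hsub).trans ?_
  rw [Real.volume_Ico]
  refine ENNReal.ofReal_le_ofReal (le_of_eq ?_)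
  rw [← sub_div, max_sub_min_eq_abs]
  congr 2
  ring

/-- counting the chords of slope `≥ l` over the cell -/
theorem count (hSTR : S_STR) (hCNT : S_CNT) (D0 : ℝ) (hE : Ext D0) (w : ℕ → ℤ → ℤ) (hw : Sgn w)
    (hB : Bd w D0) (c A : ℝ) (hc : 0 < c) (hA : 0 < A) :
    ∃ n1 : ℕ, ∀ n : ℕ, n1 ≤ n → ∀ (s : ℕ) (i : ℤ), i ∈ ivs s → slope w s i = 0 →
      c * √n ≤ (Nc w s (cell w s i) : ℝ) →
      c / 2 * √n ≤ (((ivs s).filter (fun i' => Cr w s i' (cell w s i) ∧
        A * √n ≤ |(slope w s i' : ℝ)|)).card : ℝ) := by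
  have hη : 0 < c / (4 * A) := by positivity
  obtain ⟨K, hK⟩ := hSTR D0 hE w hw hB (c / (4 * A)) hη
  obtain ⟨n1, hn1⟩ := exists_nat_ge ((D0 * (2 * K + 5) / (c / 4)) ^ 2)
  refine ⟨n1, fun n hn s i hi hs hN => ?_⟩
  have hD0 : 0 < D0 := hE.1
  have hsq : D0 * (2 * K + 5) / (c / 4) ≤ √n := by
    apply Real.le_sqrt_of_sq_le
    exact hn1.trans (by exact_mod_cast hn)
  have h1 : D0 * (2 * K + 5) ≤ c / 4 * √n := by
    rw [div_le_iff₀ (by positivity)] at hsq
    linarith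
  set q := cell w s i with hq
  set l := A * √n with hl
  have hcnt := hCNT w D0 hw hD0.le hB s K q
  have hstr := hK s i hi hs
  rw [← hq] at hstr
  -- the three classes
  set T := (ivs s).filter (fun i' => Cr w s i' q) with hT
  set T1 := (ivs s).filter (fun i' => Cr w s i' q ∧ |slope w s i'| ≤ (K:ℤ)) with hT1
  set T2 := (ivs s).filter (fun i' => Cr w s i' q ∧ (K:ℤ) < |slope w s i'|) with hT2
  set T3 := (ivs s).filter (fun i' => Cr w s i' q ∧ l ≤ |(slope w s i' : ℝ)|) with hT3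
  have hcover : T ⊆ T1 ∪ (T2.filter (fun i' => |(slope w s i' : ℝ)| < l)) ∪ T3 := by
    intro i' hi'
    rw [hT, Finset.mem_filter] at hi'
    by_cases ha : |slope w s i'| ≤ (K:ℤ)
    · exact Finset.mem_union_left _ (Finset.mem_union_left _
        (Finset.mem_filter.2 ⟨hi'.1, hi'.2, ha⟩))
    · by_cases hb : l ≤ |(slope w s i' : ℝ)|
      · exact Finset.mem_union_right _ (Finset.mem_filter.2 ⟨hi'.1, hi'.2, hb⟩)
      · refine Finset.mem_union_left _ (Finset.mem_union_right _ ?_)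
        rw [Finset.mem_filter, hT2, Finset.mem_filter]
        exact ⟨⟨hi'.1, hi'.2, not_le.1 ha⟩, not_le.1 hb⟩
  have hc2 : ((T2.filter (fun i' => |(slope w s i' : ℝ)| < l)).card : ℝ) ≤ c / 4 * √n := by
    have e1 : ((T2.filter (fun i' => |(slope w s i' : ℝ)| < l)).card : ℝ) ≤
        l * ∑ i' ∈ T2, 1 / |(slope w s i' : ℝ)| := by
      rw [Finset.mul_sum]
      have e2 : ((T2.filter (fun i' => |(slope w s i' : ℝ)| < l)).card : ℝ) =
          ∑ i' ∈ T2.filter (fun i' => |(slope w s i' : ℝ)| < l), (1:ℝ) := by simp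
      rw [e2]
      refine (Finset.sum_le_sum (f := fun _ => (1:ℝ)) (g := fun i' => l * (1 / |(slope w s i' : ℝ)|))
        ?_).trans (Finset.sum_le_sum_of_subset_of_nonneg (Finset.filter_subset _ _) ?_)
      · intro i' hi'
        rw [Finset.mem_filter, hT2, Finset.mem_filter] at hi'
        have hpos : (0:ℝ) < |(slope w s i' : ℝ)| := by
          have h3 : (0:ℤ) < |slope w s i'| := lt_of_le_of_lt (by positivity) hi'.1.2.2
          rw [← Int.cast_abs]
          exact_mod_cast h3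
        show (1:ℝ) ≤ l * (1 / |(slope w s i' : ℝ)|)
        rw [mul_one_div, le_div_iff₀ hpos, one_mul]
        exact hi'.2.le
      · intro i' _ _
        positivity
    have e3 : l * ∑ i' ∈ T2, 1 / |(slope w s i' : ℝ)| ≤ l * (c / (4 * A)) :=
      mul_le_mul_of_nonneg_left hstr (by positivity)
    refine e1.trans (e3.trans (le_of_eq ?_))
    rw [hl]; field_simp
  have hcard : (T.card : ℝ) ≤ (T1.card : ℝ) +
      ((T2.filter (fun i' => |(slope w s i' : ℝ)| < l)).card : ℝ) + (T3.card : ℝ) := by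
    have e1 := Finset.card_le_card hcover
    have e2 := Finset.card_union_le (T1 ∪ (T2.filter (fun i' => |(slope w s i' : ℝ)| < l))) T3
    have e3 := Finset.card_union_le T1 (T2.filter (fun i' => |(slope w s i' : ℝ)| < l))
    exact_mod_cast (e1.trans e2).trans (Nat.add_le_add_right e3 _)
  have hN' : c * √n ≤ (T.card : ℝ) := hN
  have hgoal : c / 2 * √n ≤ (T3.card : ℝ) := by
    have hh : (T1.card : ℝ) ≤ D0 * (2 * K + 5) := hcnt
    linarith
  exact hgoal

/-- descendants -/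
theorem desc (hDSC : S_DSC) (w : ℕ → ℤ → ℤ) (hw : Sgn w) (s M : ℕ) (hsM : s ≤ M) (q q' : ℤ)
    (l : ℝ) (hq : q' / 2 ^ (M - s) = q) :
    ((ivs s).filter (fun i' => Cr w s i' q ∧ l ≤ |(slope w s i' : ℝ)|)).card ≤
    (((ivs M).filter (fun i => ∃ s, s ≤ M ∧ l ≤ |(slope w s (i / 2 ^ (M - s)) : ℝ)|)).filter
      (fun i => Cr w M i q')).card := by
  have hex : ∀ i ∈ (ivs s).filter (fun i' => Cr w s i' q ∧ l ≤ |(slope w s i' : ℝ)|),
      ∃ i', i' / 2 ^ (M - s) = i ∧ Cr w M i' q' := by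
    intro i hi
    rw [Finset.mem_filter] at hi
    obtain ⟨i', h1, h2⟩ := hDSC w hw s (M - s) i q q' hi.2.1 hq
    refine ⟨i', h1, ?_⟩
    rwa [Nat.add_sub_cancel' hsM] at h2
  choose! f hf1 hf2 using hex
  refine Finset.card_le_card_of_injOn f ?_ ?_
  · intro i hi
    have hi2 := hi
    rw [Finset.mem_coe, Finset.mem_filter] at hi2
    rw [Finset.mem_coe, Finset.mem_filter, Finset.mem_filter]
    have hiv := hi2.1
    unfold ivs at hiv ⊢
    rw [Finset.mem_Ico] at hiv ⊢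
    have hp : (0:ℤ) < 2 ^ (M - s) := by positivity
    have h1 := hf1 i hi
    have h3 : f i = 2 ^ (M - s) * i + f i % 2 ^ (M - s) := by
      have := Int.mul_ediv_add_emod (f i) (2 ^ (M - s))
      rw [h1] at this
      exact this.symm
    have h4 := Int.emod_nonneg (f i) hp.ne'
    have h5 := Int.emod_lt_of_pos (f i) hp
    have h6 : (2:ℤ) ^ M = 2 ^ (M - s) * 2 ^ s := by
      rw [← pow_add, Nat.sub_add_cancel hsM]
    refine ⟨⟨⟨?_, ?_⟩, s, hsM, ?_⟩, hf2 i hi⟩
    · have : 0 ≤ 2 ^ (M - s) * i := mul_nonneg hp.le hiv.1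
      linarith
    · have : 2 ^ (M - s) * (i + 1) ≤ 2 ^ (M - s) * 2 ^ s :=
        mul_le_mul_of_nonneg_left (by linarith [hiv.2]) hp.le
      rw [h6]
      nlinarith
    · rw [h1]; exact hi2.2.2
  · intro i hi j hj hij
    rw [← hf1 i hi, ← hf1 j hj, hij]

/-- the Markov inequality -/
theorem markov (w : ℕ → ℤ → ℤ) (M : ℕ) (B : Finset ℤ) (V : Set ℝ) (r : ℝ) (hr : 0 < r)
    (hV : ∀ y ∈ V, r ≤ ((B.filter (fun i => Cr w M i ⌊(2:ℝ) ^ M * y⌋)).card : ℝ)) :
    volume V ≤ ENNReal.ofReal ((∑ i ∈ B, |(slope w M i : ℝ)|) / 2 ^ M / r) := by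
  classical
  set F : ℝ → ℝ≥0∞ := fun y => ∑ i ∈ B, (Ov w M i).indicator (fun _ => (1:ℝ≥0∞)) y with hF
  have hFm : Measurable F := by
    refine Finset.measurable_sum _ fun i _ => ?_
    exact measurable_const.indicator (meas_Ov w M i)
  have hFi : ∫⁻ y, F y ≤ ENNReal.ofReal ((∑ i ∈ B, |(slope w M i : ℝ)|) / 2 ^ M) := by
    rw [hF, lintegral_finsetSum _ fun i _ => measurable_const.indicator (meas_Ov w M i)]
    rw [Finset.sum_div, ENNReal.ofReal_sum_of_nonneg fun i _ => by positivity]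
    refine Finset.sum_le_sum fun i _ => ?_
    rw [lintegral_indicator (meas_Ov w M i)]
    simpa using vol_Ov w M i
  have hsub : V ⊆ {y | ENNReal.ofReal r ≤ F y} := by
    intro y hy
    have h1 := hV y hy
    have h2 : F y = ((B.filter (fun i => Cr w M i ⌊(2:ℝ) ^ M * y⌋)).card : ℝ≥0∞) := by
      rw [hF, Finset.card_filter]
      push_cast
      refine Finset.sum_congr rfl fun i _ => ?_
      by_cases h : Cr w M i ⌊(2:ℝ) ^ M * y⌋
      · rw [if_pos h, indicator_of_mem (show y ∈ Ov w M i from h)]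
      · rw [if_neg h, indicator_of_notMem (show y ∉ Ov w M i from h)]
    show ENNReal.ofReal r ≤ F y
    rw [h2, ← ENNReal.ofReal_natCast]
    exact ENNReal.ofReal_le_ofReal h1
  refine (measure_mono hsub).trans ((meas_ge_le_lintegral_div hFm.aemeasurable ?_ ?_).trans ?_)
  · exact (ENNReal.ofReal_pos.2 hr).ne'
  · exact ENNReal.ofReal_ne_top
  · rw [ENNReal.ofReal_div_of_pos hr]
    exact ENNReal.div_le_div_right hFi _

/-- piece FY -/
theorem t_FY (hSTR : S_STR) (hCNT : S_CNT) (hDSC : S_DSC) (hUPR : S_UPR) : S_FY := by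
  intro D0 hE w hw hB c A m L hc hA hL
  obtain ⟨n1, hn1⟩ := count hSTR hCNT D0 hE w hw hB c A hc hA
  refine ⟨max n1 1, fun n hn => ?_⟩
  have hn1' : n1 ≤ n := (le_max_left _ _).trans hn
  have hn0 : 1 ≤ n := (le_max_right _ _).trans hn
  have hnpos : (0:ℝ) < n := by exact_mod_cast hn0
  have hsq : 0 < √(n:ℝ) := Real.sqrt_pos.2 hnpos
  set M := L * n with hM
  set l := A * √n with hl
  have hlpos : 0 < l := by positivity
  set B := (ivs M).filter (fun i => ∃ s, s ≤ M ∧ l ≤ |(slope w s (i / 2 ^ (M - s)) : ℝ)|) with hBdef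
  have hmk := markov w M B (Vs w (n + m) M (c * √n) \ Dya) (c / 2 * √n) (by positivity) (by
    rintro y ⟨⟨x, s, hx, hs1, hs2, hs0, _, hNc, hy1, hy2⟩, hyd⟩
    have hi : ⌊(2:ℝ) ^ s * x⌋ ∈ ivs s := by
      unfold ivs
      rw [Finset.mem_Ico]
      refine ⟨Int.floor_nonneg.2 (mul_nonneg (by positivity) hx.1), ?_⟩
      rw [Int.floor_lt]
      push_cast
      have : (2:ℝ) ^ s * x < 2 ^ s * 1 := mul_lt_mul_of_pos_left hx.2 (by positivity)
      linarith
    have h1 := hn1 n hn1' s ⌊(2:ℝ) ^ s * x⌋ hi hs0 hNc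
    have hfl : ⌊(2:ℝ) ^ s * y⌋ = cell w s ⌊(2:ℝ) ^ s * x⌋ := by
      rw [Int.floor_eq_iff]
      refine ⟨hy1, lt_of_le_of_ne hy2 ?_⟩
      intro he
      apply hyd
      exact ⟨s, cell w s ⌊(2:ℝ) ^ s * x⌋ + 1, by push_cast; exact he⟩
    have hq : ⌊(2:ℝ) ^ M * y⌋ / 2 ^ (M - s) = cell w s ⌊(2:ℝ) ^ s * x⌋ := by
      have h2 := floor_div s (M - s) y
      rw [Nat.add_sub_cancel' hs2] at h2
      rw [← h2, hfl]
    have h3 := desc hDSC w hw s M hs2 _ _ l hq
    refine h1.trans ?_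
    exact_mod_cast h3)
  have hupr := hUPR w hw M l hlpos
  have hsplit : volume (Vs w (n + m) M (c * √n)) ≤ volume (Vs w (n + m) M (c * √n) \ Dya) := by
    rw [measure_sdiff_null vol_Dya]
  refine hsplit.trans (hmk.trans (ENNReal.ofReal_le_ofReal ?_))
  have h2M : (0:ℝ) < 2 ^ M := by positivity
  have h4 : (∑ i ∈ B, |(slope w M i : ℝ)|) / 2 ^ M ≤ M / l := by
    rw [div_le_iff₀ h2M]
    linarith [hupr]
  calc (∑ i ∈ B, |(slope w M i : ℝ)|) / 2 ^ M / (c / 2 * √n) ≤ (M / l) / (c / 2 * √n) :=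
        div_le_div_of_nonneg_right h4 (by positivity)
    _ = 2 * L / (c * A) := by
        rw [hl, hM]
        push_cast
        have hs2 : √(n:ℝ) * √(n:ℝ) = n := Real.mul_self_sqrt hnpos.le
        rw [div_div, div_eq_div_iff (by positivity) (by positivity)]
        linear_combination (-(L:ℝ) * c * A) * hs2

end Pool.Agent.Run7.h871.TK
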